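import Pool.Agent.W207.PR.A0

/-!
# One-sided bounds for Montgomery's function: the analytic tasks (Mathlib only)

`ct ψ x = ∫ ψ(α) cos (2π α x) dα`, `dt ψ` its derivative, `G u = ∫_0^u (1 - (sin πt / πt)²) dt`
(`Pool.Agent.W207.PR.A0`).
-/

set_option autoImplicit false

open Filter Topology Set MeasureTheory
open scoped BigOperators

namespace W207.PF

open W207.PR (ct dt G)

/-- the transform of the indicator function of `[-h/2, h/2]` -/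
noncomputable def sn (h x : ℝ) : ℝ := ∫ y in (-(h / 2))..(h / 2), Real.cos (2 * Real.pi * y * x)

/-- the tent of half-width `lam` -/
noncomputable def tn (lam a : ℝ) : ℝ := max (1 - |a| / lam) 0

/-- the conjectured mean of Montgomery's function over the window of length `h` centred at `a` -/
noncomputable def nuw (h a : ℝ) : ℝ :=
  (∫ α in (a - h / 2)..(a + h / 2), min |α| 1) + if |a| < h / 2 then 1 else 0

/-- the main term for a test function `φ` of the normalised differences -/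
noncomputable def MZ (φ : ℝ → ℝ) : ℝ :=
  φ 0 + ∫ x, φ x * (1 - (Real.sin (Real.pi * x) / (Real.pi * x)) ^ 2)

/-- KER, first part: Fejér kernels -/
def S_TN : Prop := ∀ lam : ℝ, 0 < lam →
  Continuous (tn lam) ∧ (∀ a, 0 ≤ tn lam a ∧ tn lam a ≤ 1) ∧ ∫ a, tn lam a = lam ∧
  (∀ x, x ≠ 0 → ct (tn lam) x = lam * (Real.sin (Real.pi * (lam * x)) / (Real.pi * (lam * x))) ^ 2) ∧
  ct (tn lam) 0 = lam ∧ Continuous (ct (tn lam)) ∧ (∀ x, ct (tn lam) (-x) = ct (tn lam) x) ∧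
  (∀ x, 0 ≤ ct (tn lam) x ∧ ct (tn lam) x ≤ lam ∧
    ct (tn lam) x * (Real.pi ^ 2 * lam * x ^ 2) ≤ 1) ∧
  Integrable (ct (tn lam)) ∧ ∫ x, ct (tn lam) x = 1

/-- KER, second part: the transform of a window -/
def S_SN : Prop := ∀ h : ℝ, 0 < h →
  sn h 0 = h ∧ (∀ x, x ≠ 0 → sn h x = Real.sin (Real.pi * h * x) / (Real.pi * x)) ∧
  Continuous (sn h) ∧ (∀ x, sn h (-x) = sn h x) ∧ (∀ x, |sn h x| ≤ h) ∧
  (∀ x, |sn h x| * (Real.pi * |x|) ≤ 1) ∧ (∀ x, |sn h x| * (1 + |x|) ≤ h + 1) ∧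
  (∀ x, |x| ≤ 1 / h → 0 ≤ sn h x)

/-- NU: the tent against the conjectured window means -/
def S_NU : Prop := ∀ h : ℝ, 0 < h →
  Measurable (nuw h) ∧ (∀ a, 0 ≤ nuw h a ∧ nuw h a ≤ h + 1) ∧
  ∀ lam : ℝ, 0 < lam → ∫ a, tn lam a * nuw h a ≤ h * lam + h * (1 + h / 2) / lam

/-- APX1: the identity for the truncated transforms -/
def S_APX1 : Prop := ∀ c : ℝ → ℝ, Continuous c → (∀ y, c (-y) = c y) → HasCompactSupport c →
  ∀ R : ℝ, 0 < R → Continuous (fun a => tn R a * ct c a) ∧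
    HasCompactSupport (fun a => tn R a * ct c a) ∧
    ∀ x, ct (fun a => tn R a * ct c a) x = ∫ y, c y * ct (tn R) (x - y)

/-- APX2: Fejér's theorem with a weight -/
def S_APX2 : Prop := S_TN → ∀ c : ℝ → ℝ, Continuous c → HasCompactSupport c →
  ∀ ε : ℝ, 0 < ε → ∃ R0 : ℝ, 0 < R0 ∧ ∀ R : ℝ, R0 ≤ R → ∀ x : ℝ,
    |(∫ y, c y * ct (tn R) (x - y)) - c x| * (1 + |x|) ^ 2 ≤ ε

/-- APX3: the limit of the main terms -/
def S_APX3 : Prop := S_TN → S_SN → S_APX1 → S_APX2 → ∀ h : ℝ, 0 < h → ∀ b : ℝ → ℝ, Continuous b →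
  (∀ y, b (-y) = b y) → HasCompactSupport b →
  Tendsto (fun R : ℝ => ∫ a, (tn R a * ct (fun y => b y * sn h y) a) * nuw h a) atTop
    (𝓝 (MZ (fun x => sn h x ^ 2 * b x)))

/-- MIN: minorants of the indicator function of `[-u, u]` -/
def S_MIN : Prop := S_SN → ∀ h u ε : ℝ, 0 < h → 0 < u → 0 < ε → ∃ b : ℝ → ℝ, Continuous b ∧
  (∀ y, b (-y) = b y) ∧ HasCompactSupport b ∧ (∀ y, 0 ≤ b y) ∧
  (∀ x, |x| ≤ u → sn h x ^ 2 * b x ≤ 1) ∧ (∀ x, u < |x| → b x = 0) ∧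
  1 + 2 * G u - ε ≤ MZ (fun x => sn h x ^ 2 * b x)

/-- AB: the abstract one-sided argument.  `w j a` are the window means of Montgomery's function at
the height `t j`, `n j` is the normalised number of pairs with equal ordinates -/
def S_AB : Prop := S_TN → S_NU → ∀ h : ℝ, 0 < h → ∀ (w : ℕ → ℝ → ℝ) (n : ℕ → ℝ) (C : ℝ),
  (∀ j, Measurable (w j)) → (∀ j a, 0 ≤ w j a ∧ w j a ≤ C) →
  (∀ᵐ a : ℝ, ∀ ε : ℝ, 0 < ε → ∀ᶠ j in atTop, w j a ≤ nuw h a + ε) →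
  (∀ lam : ℝ, 1 ≤ lam → ∀ j, h * lam * n j - C / lam ≤ ∫ a, tn lam a * w j a) →
  (∀ ε : ℝ, 0 < ε → ∀ᶠ j in atTop, 1 - ε ≤ n j) →
  (∀ ε : ℝ, 0 < ε → ∀ᶠ j in atTop, n j ≤ 1 + ε) ∧
  ∀ κ : ℝ → ℝ, Continuous κ → HasCompactSupport κ →
    Tendsto (fun j => ∫ a, κ a * w j a) atTop (𝓝 (∫ a, κ a * nuw h a))

/-- MZG: the main term by partial integration -/
def S_MZG : Prop := ∀ φ φ' : ℝ → ℝ, (∀ x, φ (-x) = φ x) → (∀ x, HasDerivAt φ (φ' x) x) →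
  Continuous φ' → ∀ K : ℝ, (∀ x, |φ x| * (1 + |x|) ^ 3 ≤ K ∧ |φ' x| * (1 + |x|) ^ 3 ≤ K) →
  IntegrableOn (fun u => φ' u * (1 + 2 * G u)) (Ioi 0) ∧
  MZ φ = -∫ u in Ioi (0 : ℝ), φ' u * (1 + 2 * G u)

/-- INV: transforms of smooth functions of compact support (not necessarily even) -/
def S_INV : Prop := ∀ ψ : ℝ → ℝ, (∀ n : ℕ, ContDiff ℝ n ψ) → HasCompactSupport ψ →
  (∀ x, ct ψ (-x) = ct ψ x) ∧ (∀ x, HasDerivAt (ct ψ) (dt ψ x) x) ∧ Continuous (dt ψ) ∧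
  (∀ n : ℕ, ∃ K : ℝ, 0 < K ∧ ∀ x, |ct ψ x| * (1 + |x|) ^ n ≤ K ∧ |dt ψ x| * (1 + |x|) ^ n ≤ K) ∧
  MZ (ct ψ) = ψ 0 + ∫ α, min |α| 1 * ψ α

/-- SAND: from smooth functions to windows.  (`S` restricts the support.) -/
def S_SAND : Prop := ∀ (l : Filter ℝ) (F : ℝ → ℝ → ℝ) (S : ℝ), 0 < S →
  (∀ᶠ T in l, Continuous (F T) ∧ ∀ a, 0 ≤ F T a) →
  (∀ ψ : ℝ → ℝ, (∀ n : ℕ, ContDiff ℝ n ψ) → (∃ μ : ℝ, 0 < μ ∧ μ < S ∧ ∀ x, μ ≤ |x| → ψ x = 0) →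
    Tendsto (fun T => ∫ α, ψ α * F T α) l (𝓝 (ψ 0 + ∫ α, min |α| 1 * ψ α))) →
  ∀ a b : ℝ, -S < a → a < b → b < S → a ≠ 0 → b ≠ 0 →
    Tendsto (fun T => ∫ α in a..b, F T α) l
      (𝓝 ((∫ α in a..b, min |α| 1) + if a < 0 ∧ 0 < b then 1 else 0))

end W207.PF
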