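import Pool.Agent.W207.PF.SpecB

/-! # Montgomery's function as in the problem file -/

set_option autoImplicit false

open Complex Filter Topology Set MeasureTheory
open scoped BigOperators

namespace W207.PF

open W207.PR (ct dt G ZT mz X P PP Zs Zs_finite Zs_toFinset mu)

lemma zer_toFinset (T : ℝ) : (Zs_finite T).toFinset = ZT T := Zs_toFinset T

theorem fdB : S_FD := by
  intro T α hT
  have hX := W207.PR.X_pos hT
  have hT0 : 0 < T := by linarith
  have h1 : FC T α = ∑ s ∈ ZT T, ∑ s' ∈ ZT T, ((mz s : ℂ) * (mz s' : ℂ)) *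
      ((T : ℂ) ^ (I * (α : ℂ) * ((s.im - s'.im : ℝ) : ℂ)) *
        ((4 / (4 + (s.im - s'.im) ^ 2) : ℝ) : ℂ)) := by
    unfold FC
    have hz : zer T = Zs T := rfl
    rw [hz, finsum_mem_eq_finite_toFinset_sum _ (Zs_finite T), zer_toFinset]
    refine Finset.sum_congr rfl fun s _ => ?_
    rw [finsum_mem_eq_finite_toFinset_sum _ (Zs_finite T), zer_toFinset]
    refine Finset.sum_congr rfl fun s' _ => ?_
    rw [W207.PR.mz_eq, W207.PR.mz_eq]
    unfold mu
    push_cast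
    rfl
  have h2 : ∀ s s' : ℂ, ((mz s : ℂ) * (mz s' : ℂ)) *
      ((T : ℂ) ^ (I * (α : ℂ) * ((s.im - s'.im : ℝ) : ℂ)) *
        ((4 / (4 + (s.im - s'.im) ^ 2) : ℝ) : ℂ)) =
      ((mz s * mz s' * (Real.cos (α * Real.log T * (s.im - s'.im)) *
        (4 / (4 + (s.im - s'.im) ^ 2))) : ℝ) : ℂ) +
      ((mz s * mz s' * (Real.sin (α * Real.log T * (s.im - s'.im)) *
        (4 / (4 + (s.im - s'.im) ^ 2))) : ℝ) : ℂ) * I := by
    intro s s'
    have hne : (T : ℂ) ≠ 0 := by exact_mod_cast hT0.ne'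
    rw [Complex.cpow_def_of_ne_zero hne, ← Complex.ofReal_log hT0.le]
    have e1 : ((Real.log T : ℝ) : ℂ) * (I * (α : ℂ) * ((s.im - s'.im : ℝ) : ℂ)) =
        ((α * Real.log T * (s.im - s'.im) : ℝ) : ℂ) * I := by
      push_cast
      ring
    rw [e1, Complex.exp_mul_I, ← Complex.ofReal_cos, ← Complex.ofReal_sin]
    push_cast
    ring
  rw [h1]
  simp_rw [h2]
  simp_rw [Finset.sum_add_distrib, ← Finset.sum_mul]
  have h3 : ∑ s ∈ ZT T, ∑ s' ∈ ZT T, (mz s * mz s' * (Real.sin (α * Real.log T * (s.im - s'.im)) *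
        (4 / (4 + (s.im - s'.im) ^ 2)))) = 0 := by
    have e2 : ∑ s ∈ ZT T, ∑ s' ∈ ZT T, (mz s * mz s' *
        (Real.sin (α * Real.log T * (s.im - s'.im)) * (4 / (4 + (s.im - s'.im) ^ 2)))) =
        -∑ s ∈ ZT T, ∑ s' ∈ ZT T, (mz s * mz s' *
        (Real.sin (α * Real.log T * (s.im - s'.im)) * (4 / (4 + (s.im - s'.im) ^ 2)))) := by
      rw [← Finset.sum_neg_distrib]
      rw [Finset.sum_comm]
      refine Finset.sum_congr rfl fun s _ => ?_
      rw [← Finset.sum_neg_distrib]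
      refine Finset.sum_congr rfl fun s' _ => ?_
      have e3 : α * Real.log T * (s'.im - s.im) = -(α * Real.log T * (s.im - s'.im)) := by ring
      have e4 : (s'.im - s.im) ^ 2 = (s.im - s'.im) ^ 2 := by ring
      rw [e3, e4, Real.sin_neg]
      ring
    linarith
  have h4 : ∑ s ∈ ZT T, ∑ s' ∈ ZT T, ((mz s * mz s' *
      (Real.sin (α * Real.log T * (s.im - s'.im)) * (4 / (4 + (s.im - s'.im) ^ 2))) : ℝ) : ℂ) =
      0 := by
    have := congrArg (fun x : ℝ => (x : ℂ)) h3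
    simpa using this
  rw [h4, zero_mul, add_zero]
  have h5 : FF T α * (T / (2 * Real.pi) * Real.log T) = ∑ s ∈ ZT T, ∑ s' ∈ ZT T, mz s * mz s' *
    (Real.cos (α * Real.log T * (s.im - s'.im)) * (4 / (4 + (s.im - s'.im) ^ 2))) := by
    unfold FF
    have hX' : T / (2 * Real.pi) * Real.log T = X T := rfl
    rw [hX', div_mul_cancel₀ _ hX.ne']
  rw [h5]
  push_cast
  rfl

end W207.PF
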