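import Pool.Agent.W207.PF.Main

/-! # The Fejér window inequality -/

set_option autoImplicit false

open Complex Filter Topology Set MeasureTheory
open scoped BigOperators

namespace W207.PF

open W207.PR (ct dt G ZT mz X P PP)
open W207.PU (UBU Neu)

theorem fejB : S_FEJ := by
  classical
  intro hub hmass htn hsn h hh
  obtain ⟨C, T0, hC, hT0, hm⟩ := hmass hub
  have hpi := Real.pi_pos
  set Ch : ℝ := (1 + h) ^ 3 with hCh
  have hCh0 : 0 < Ch := by positivity
  refine ⟨C * Ch, T0, by positivity, hT0, fun T hT lam hlam => ?_⟩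
  have hT10 := hT0.trans hT
  have hX := W207.PR.X_pos hT10
  have hlam0 : 0 < lam := by linarith
  obtain ⟨s0, s1, s2, s3, s4, s5, s6, s7⟩ := hsn h hh
  obtain ⟨t1, t2, t3, t4, t5, t6, t7, t8, t9, t10⟩ := htn lam hlam0
  set φ : ℝ → ℝ := fun x => sn h x * ct (tn lam) x with hφ
  set q : ℝ → ℝ := fun x => 1 / (1 + |x|) ^ 3 with hq
  have hφ0 : φ 0 = h * lam := by simp only [hφ]; rw [s0, t5]
  -- the pointwise lower bound
  have hlow : ∀ x, -(Ch / lam) * q x ≤ φ x := by
    intro x
    have hq0 : 0 ≤ q x := by simp only [hq]; positivity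
    have hnp : -(Ch / lam) * q x ≤ 0 := by
      have : 0 ≤ Ch / lam * q x := by positivity
      linarith
    rcases le_or_gt (|x|) (1 / h) with hx | hx
    · exact hnp.trans (mul_nonneg (s7 x hx) (t8 x).1)
    · have hxp : 0 < |x| := lt_trans (by positivity) hx
      have hx1 : 1 ≤ h * |x| := by
        rw [div_lt_iff₀ hh] at hx
        linarith
      have e1 : |sn h x| ≤ 1 / (Real.pi * |x|) := by
        rw [le_div_iff₀ (by positivity)]
        exact s5 x
      have e2 : ct (tn lam) x ≤ 1 / (Real.pi ^ 2 * lam * |x| ^ 2) := by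
        rw [le_div_iff₀ (by positivity), sq_abs]
        exact (t8 x).2.2
      have e3 : |φ x| ≤ Ch / lam * q x := by
        simp only [hφ, hq]
        rw [abs_mul, abs_of_nonneg (t8 x).1]
        calc |sn h x| * ct (tn lam) x ≤ 1 / (Real.pi * |x|) * (1 / (Real.pi ^ 2 * lam * |x| ^ 2)) :=
              mul_le_mul e1 e2 (t8 x).1 (by positivity)
          _ = 1 / (Real.pi ^ 3 * lam * |x| ^ 3) := by field_simp
          _ ≤ 1 / (lam * |x| ^ 3) := by
              apply one_div_le_one_div_of_le (by positivity)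
              have h1 : (1 : ℝ) ≤ Real.pi ^ 3 := one_le_pow₀ (by linarith [Real.pi_gt_three])
              have h2 : 0 < lam * |x| ^ 3 := by positivity
              nlinarith
          _ ≤ Ch / lam * (1 / (1 + |x|) ^ 3) := by
              rw [hCh, div_mul_div_comm, mul_one, div_le_div_iff₀ (by positivity) (by positivity)]
              have h3 : 1 + |x| ≤ (1 + h) * |x| := by linarith
              calc 1 * (lam * (1 + |x|) ^ 3) ≤ 1 * (lam * ((1 + h) * |x|) ^ 3) := by gcongr
                _ = (1 + h) ^ 3 * (lam * |x| ^ 3) := by ring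
      have := neg_abs_le (φ x)
      linarith
  -- the mass
  have hmq := hm T hT q 1 (by
    intro x
    simp only [hq]
    rw [abs_of_nonneg (by positivity), one_div, inv_mul_cancel₀ (by positivity)])
  rw [mul_one] at hmq
  have hmq2 : LT T q ≤ C := (le_abs_self _).trans hmq
  -- sum
  have key : h * lam * (Neu T : ℝ) - (Ch / lam) * (LT T q * X T) ≤ LT T φ * X T := by
    have e1 : LT T φ * X T = ∑ s ∈ ZT T, ∑ s' ∈ ZT T, mz s * mz s' *
        (φ ((s.im - s'.im) * Real.log T / (2 * Real.pi)) * (4 / (4 + (s.im - s'.im) ^ 2))) := by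
      unfold LT
      rw [div_mul_cancel₀ _ hX.ne']
    have e2 : LT T q * X T = ∑ s ∈ ZT T, ∑ s' ∈ ZT T, mz s * mz s' *
        (q ((s.im - s'.im) * Real.log T / (2 * Real.pi)) * (4 / (4 + (s.im - s'.im) ^ 2))) := by
      unfold LT
      rw [div_mul_cancel₀ _ hX.ne']
    rw [e1, e2, W207.PU.Neu_eq, Finset.mul_sum, Finset.mul_sum, ← Finset.sum_sub_distrib]
    refine Finset.sum_le_sum fun s _ => ?_
    rw [Finset.mul_sum, Finset.mul_sum, ← Finset.sum_sub_distrib]
    refine Finset.sum_le_sum fun s' _ => ?_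
    have hmm : 0 ≤ mz s * mz s' := mul_nonneg (W207.PR.mz_nonneg _) (W207.PR.mz_nonneg _)
    by_cases he : s'.im = s.im
    · rw [if_pos he, he, sub_self, zero_mul, zero_div, hφ0]
      have hq0 : q 0 = 1 := by simp [hq]
      rw [hq0]
      have h1 : 0 ≤ Ch / lam * (mz s * mz s' * (1 * (4 / (4 + (0 : ℝ) ^ 2)))) := by positivity
      have h2 : (4 / (4 + (0 : ℝ) ^ 2)) = 1 := by norm_num
      rw [h2, mul_one] at *
      nlinarith
    · rw [if_neg he, mul_zero, zero_sub]
      set d := s.im - s'.im
      have hw : 0 ≤ 4 / (4 + d ^ 2) := by positivity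
      have h1 := mul_le_mul_of_nonneg_right (hlow (d * Real.log T / (2 * Real.pi))) hw
      have h2 := mul_le_mul_of_nonneg_left h1 hmm
      refine le_trans (le_of_eq ?_) h2
      ring
  have h5 : h * lam * (Neu T / X T) - C * Ch / lam ≤
      (h * lam * (Neu T : ℝ) - (Ch / lam) * (LT T q * X T)) / X T := by
    have e3 : (h * lam * (Neu T : ℝ) - (Ch / lam) * (LT T q * X T)) / X T =
        h * lam * (Neu T / X T) - (Ch / lam) * LT T q := by
      field_simp
    rw [e3]
    have h6 : Ch / lam * LT T q ≤ Ch / lam * C := mul_le_mul_of_nonneg_left hmq2 (by positivity)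
    have h7 : Ch / lam * C = C * Ch / lam := by ring
    linarith
  refine h5.trans ?_
  rw [div_le_iff₀ hX]
  exact key

end W207.PF
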