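import Pool.Agent.W207.PF.Strong

/-! # One-sided bounds for Montgomery's function: the final forms -/

set_option autoImplicit false

open Complex Filter Topology Set MeasureTheory
open scoped BigOperators

namespace W207.PF

open W207.PR (ct dt G ZT mz X P PP D Zs Zs_finite Zs_toFinset mu Nal mem_ZT)
open W207.PU (UBU Neu Inp Nso of_Neu PP_Neu)

/-- the number of pairs, as in the problem file -/
noncomputable def Np (T α β : ℝ) : ℕ :=
  ∑ᶠ s ∈ Zs T, ∑ᶠ s' ∈ {s' : ℂ | s' ∈ Zs T ∧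
    2 * Real.pi * α / Real.log T ≤ s.im - s'.im ∧ s.im - s'.im ≤ 2 * Real.pi * β / Real.log T},
      mu s * mu s'

lemma Np_eq (T α β : ℝ) : (Np T α β : ℝ) =
    W201FW.NA T (2 * Real.pi * α / Real.log T) (2 * Real.pi * β / Real.log T) := by
  classical
  unfold Np W201FW.NA
  rw [finsum_mem_eq_finite_toFinset_sum _ (Zs_finite T), Zs_toFinset]
  push_cast
  apply Finset.sum_congr rfl
  intro s _
  have hfin : {s' : ℂ | s' ∈ Zs T ∧
      2 * Real.pi * α / Real.log T ≤ s.im - s'.im ∧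
      s.im - s'.im ≤ 2 * Real.pi * β / Real.log T}.Finite :=
    (Zs_finite T).subset fun _ h => h.1
  rw [finsum_mem_eq_finite_toFinset_sum _ hfin]
  push_cast
  rw [← Finset.sum_filter]
  apply Finset.sum_congr
  · ext s'
    rw [Set.Finite.mem_toFinset, Finset.mem_filter, mem_ZT]
    simp only [Set.mem_ofPred_eq]
  · intro s' _
    rfl

/-- the prediction -/
noncomputable def pr (α β : ℝ) : ℝ :=
  (∫ u in α..β, (1 - (Real.sin (Real.pi * u) / (Real.pi * u)) ^ 2)) + if α ≤ 0 ∧ 0 ≤ β then 1 else 0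

/-- the pair correlation conjecture as in the problem file -/
def PC (l : Filter ℝ) : Prop := ∀ α β : ℝ, α < β →
  Tendsto (fun T => (Np T α β : ℝ) / (T / (2 * Real.pi) * Real.log T)) l (𝓝 (pr α β))

lemma PC_iff (hBR : S_BR) {l : Filter ℝ} (hl : l ≤ atTop) : PC l ↔ PP l := by
  rw [hBR l hl]
  unfold PC
  simp_rw [Np_eq]
  rfl

/-- Montgomery's function -/
noncomputable def FM (T α : ℝ) : ℂ := FC T α / ((T / (2 * Real.pi) * Real.log T : ℝ) : ℂ)

lemma FM_eq (hFD : S_FD) {T : ℝ} (hT : 10 ≤ T) (α : ℝ) : FM T α = (FF T α : ℂ) := by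
  have hX := W207.PR.X_pos hT
  unfold FM
  rw [hFD T α hT]
  unfold W207.PR.X at hX
  have h0 : ((T / (2 * Real.pi) * Real.log T : ℝ) : ℂ) ≠ 0 := by exact_mod_cast hX.ne'
  rw [Complex.ofReal_mul, mul_div_cancel_right₀ _ h0]

lemma FM_re (hFD : S_FD) {T : ℝ} (hT : 10 ≤ T) (α : ℝ) : (FM T α).re = FF T α := by
  rw [FM_eq hFD hT, Complex.ofReal_re]

/-- the conjectured integral of Montgomery's function -/
noncomputable def nu (a b : ℝ) : ℝ := (∫ α in a..b, min |α| 1) + if a < 0 ∧ 0 < b then 1 else 0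

/-- one-sided bounds for the windows of length `h` -/
def UPW (l : Filter ℝ) (h : ℝ) : Prop := ∀ᵐ a : ℝ, ∀ ε : ℝ, 0 < ε → ∀ᶠ T in l,
  ∫ α in a..(a + h), (FM T α).re ≤ nu a (a + h) + ε

lemma nu_eq {h : ℝ} (_hh : 0 < h) (a : ℝ) : nu (a - h / 2) (a + h / 2) = nuw h a := by
  unfold nu nuw
  have e : (a - h / 2 < 0 ∧ 0 < a + h / 2) ↔ |a| < h / 2 := by
    rw [abs_lt]
    constructor
    · rintro ⟨h1, h2⟩; constructor <;> linarith
    · rintro ⟨h1, h2⟩; constructor <;> linarith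
  simp only [e]

lemma int_re (hFD : S_FD) {T : ℝ} (hT : 10 ≤ T) (a b : ℝ) :
    ∫ α in a..b, (FM T α).re = ∫ α in a..b, FF T α := by
  refine intervalIntegral.integral_congr fun α _ => ?_
  exact FM_re hFD hT α

lemma UPW_iff (hFD : S_FD) {l : Filter ℝ} (hl : l ≤ atTop) {h : ℝ} (hh : 0 < h) :
    UPW l h ↔ UW l h := by
  have htr : ∀ (p : ℝ → Prop), (∀ᵐ u : ℝ, p u) → ∀ t : ℝ, ∀ᵐ v : ℝ, p (v + t) := fun p hp t =>
    (measurePreserving_add_right volume t).quasiMeasurePreserving.ae hp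
  constructor
  · intro hU
    filter_upwards [htr _ hU (-(h / 2))] with a ha ε hε
    filter_upwards [ha ε hε, hl (eventually_ge_atTop (10 : ℝ))] with T g hT
    rw [int_re hFD hT, show a + -(h / 2) + h = a + h / 2 by ring,
      show a + -(h / 2) = a - h / 2 by ring, nu_eq hh] at g
    exact g
  · intro hU
    filter_upwards [htr _ hU (h / 2)] with a ha ε hε
    filter_upwards [ha ε hε, hl (eventually_ge_atTop (10 : ℝ))] with T g hT
    rw [int_re hFD hT]
    unfold win at g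
    rw [← nu_eq hh, show a + h / 2 - h / 2 = a by ring, show a + h / 2 + h / 2 = a + h by ring] at g
    exact g

/-- the theorem for filters -/
theorem finF (I : Inp) (J : InpF) (hBR : S_BR) (hFD : S_FD) (l : Filter ℝ)
    [l.IsCountablyGenerated] (hl : l ≤ atTop) (h : ℝ) (hh : 0 < h) :
    (PC l ↔ UPW l h) ∧
    (PC l → (∀ a b : ℝ, a < b → a ≠ 0 → b ≠ 0 →
      Tendsto (fun T => ∫ α in a..b, (FM T α).re) l (𝓝 (nu a b))) ∧
      Tendsto (fun T => (Nso T : ℝ) / Nal T) l (𝓝 1)) := by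
  refine ⟨?_, fun hP => ⟨fun a b hab ha hb => ?_, ?_⟩⟩
  · rw [PC_iff hBR hl, UPW_iff hFD hl hh]
    exact main I J l hl hh
  · have h1 := windows I J hl ((PC_iff hBR hl).1 hP) a b hab ha hb
    refine h1.congr' ?_
    filter_upwards [hl (eventually_ge_atTop (10 : ℝ))] with T hT
    exact (int_re hFD hT a b).symm
  · have hP' := (PC_iff hBR hl).1 hP
    exact (of_Neu hl fun ε hε =>
      ((PP_Neu hl hP').eventually (gt_mem_nhds (show (1 : ℝ) < 1 + ε by linarith))).mono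
        fun _ g => g.le).2.2

/-- the theorem for single heights -/
theorem finS (I : Inp) (J : InpF) (hBR : S_BR) (hFD : S_FD) (h : ℝ) (hh : 0 < h)
    (α₀ β₀ ε : ℝ) (hαβ : α₀ < β₀) (hε : 0 < ε) :
    ∃ A δ T₀ : ℝ, 0 < δ ∧ ∀ T : ℝ, T₀ ≤ T →
      (∀ a : ℝ, |a| ≤ A → δ ≤ |a| → δ ≤ |a + h| →
        ∫ α in a..(a + h), (FM T α).re ≤ nu a (a + h) + δ) →
      |(Np T α₀ β₀ : ℝ) / (T / (2 * Real.pi) * Real.log T) - pr α₀ β₀| ≤ ε ∧
        (1 - ε) * (Nal T : ℝ) ≤ Nso T := by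
  by_contra hcon
  push Not at hcon
  have hcon' : ∀ n : ℕ, ∃ T : ℝ, (n : ℝ) + 10 ≤ T ∧
      (∀ a : ℝ, |a| ≤ n → 1 / ((n : ℝ) + 1) ≤ |a| → 1 / ((n : ℝ) + 1) ≤ |a + h| →
        ∫ α in a..(a + h), (FM T α).re ≤ nu a (a + h) + 1 / ((n : ℝ) + 1)) ∧
      ¬ (|(Np T α₀ β₀ : ℝ) / (T / (2 * Real.pi) * Real.log T) - pr α₀ β₀| ≤ ε ∧
        (1 - ε) * (Nal T : ℝ) ≤ Nso T) := by
    intro n
    obtain ⟨T, hT, h2, h3⟩ := hcon n (1 / ((n : ℝ) + 1)) ((n : ℝ) + 10) (by positivity)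
    refine ⟨T, hT, h2, ?_⟩
    rintro ⟨g1, g2⟩
    exact absurd g2 (not_le.2 (h3 g1))
  choose t ht1 ht2 ht3 using hcon'
  have htop : Tendsto t atTop atTop :=
    tendsto_atTop_mono (fun n => (by linarith [ht1 n] : (n : ℝ) ≤ t n)) tendsto_natCast_atTop_atTop
  have hl : map t atTop ≤ atTop := htop
  have hU : UPW (map t atTop) h := by
    have h0 : ∀ᵐ a : ℝ, a ≠ 0 ∧ a ≠ -h := by
      rw [ae_iff]
      refine measure_mono_null (t := {0, -h}) ?_ (Set.Finite.measure_zero (by simp) _)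
      intro x hx
      simp only [Set.mem_ofPred_eq, not_and_or, not_not] at hx
      simpa using hx
    filter_upwards [h0] with a ha η hη
    rw [eventually_map]
    have h1 : 0 < |a| := abs_pos.2 ha.1
    have h2 : 0 < |a + h| := abs_pos.2 (fun e => ha.2 (by linarith))
    have hlim : Tendsto (fun n : ℕ => 1 / ((n : ℝ) + 1)) atTop (𝓝 0) :=
      tendsto_one_div_add_atTop_nhds_zero_nat
    filter_upwards [hlim.eventually (gt_mem_nhds h1), hlim.eventually (gt_mem_nhds h2),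
      hlim.eventually (gt_mem_nhds hη), eventually_ge_atTop ⌈|a|⌉₊] with n g1 g2 g3 g4
    have g5 : |a| ≤ n := (Nat.le_ceil _).trans (by exact_mod_cast g4)
    have := ht2 n a g5 g1.le g2.le
    linarith
  obtain ⟨e1, e2⟩ := finF I J hBR hFD (map t atTop) hl h hh
  have hP := e1.2 hU
  have h3 := (e2 hP).2
  have h4 := hP α₀ β₀ hαβ
  rw [tendsto_map'_iff] at h3 h4
  have h5 := (Metric.tendsto_nhds.1 h4) ε hε
  have h6 := (Metric.tendsto_nhds.1 h3) ε hε
  have h7 : ∀ᶠ n in atTop, 0 < (Nal (t n) : ℝ) := by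
    have h8 := htop.eventually (W207.PR.Nal_lower (1 / 2) (by norm_num))
    filter_upwards [h8, htop.eventually_ge_atTop (10 : ℝ)] with n g1 g2
    have hX := W207.PR.X_pos g2
    rw [le_div_iff₀ hX] at g1
    have : (0 : ℝ) < (1 - 1 / 2) * X (t n) := by positivity
    linarith
  obtain ⟨n, g1, g2, g3⟩ := (h5.and (h6.and h7)).exists
  apply ht3 n
  rw [Real.dist_eq] at g1 g2
  refine ⟨g1.le, ?_⟩
  have g4 := (abs_lt.1 g2).1
  have g5 : 1 - ε ≤ (Nso (t n) : ℝ) / Nal (t n) := by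
    simp only [Function.comp_apply] at g4
    linarith
  rwa [le_div_iff₀ g3] at g5

/-- the theorem on the strong form -/
theorem finRH (hRH : RiemannHypothesis) (I : Inp) (J : InpF) (hBR : S_BR) (hFD : S_FD)
    (l : Filter ℝ) [l.IsCountablyGenerated] (hl : l ≤ atTop)
    (hU : ∀ A : ℝ, 1 < A → ∀ ε : ℝ, 0 < ε → ∀ᶠ T in l,
      ∀ α : ℝ, 1 / 2 ≤ α → α ≤ A → (FM T α).re ≤ 1 + ε) :
    (∀ A : ℝ, 1 < A → Tendsto (fun T => ∫ α in (1 : ℝ)..A, ‖FM T α - 1‖) l (𝓝 0)) ∧ PC l := by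
  have hU' : UpS l := by
    intro A hA ε hε
    filter_upwards [hU A hA ε hε, hl (eventually_ge_atTop (10 : ℝ))] with T g hT α h1 h2
    rw [← FM_re hFD hT]
    exact g α h1 h2
  obtain ⟨h1, h2⟩ := strong hRH I J l hl hU'
  refine ⟨fun A hA => (h2 A hA).congr' ?_, (PC_iff hBR hl).2 h1⟩
  filter_upwards [hl (eventually_ge_atTop (10 : ℝ))] with T hT
  refine intervalIntegral.integral_congr fun α _ => ?_
  show |FF T α - 1| = ‖FM T α - 1‖
  rw [FM_eq hFD hT, ← Complex.ofReal_one, ← Complex.ofReal_sub, Complex.norm_real,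
    Real.norm_eq_abs]

end W207.PF
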