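import Pool.Agent.W207.PF.Main

/-! # Local mass of Montgomery's function -/

set_option autoImplicit false

open Complex Filter Topology Set MeasureTheory
open scoped BigOperators

namespace W207.PF

open W207.PR (ct dt G ZT mz X P PP)
open W207.PU (UBU Neu)

lemma ct_shift {lam a0 x : ℝ} (hc : Continuous (tn lam)) (hlam : 0 < lam) :
    ct (fun a => tn lam (a - a0)) x = Real.cos (2 * Real.pi * a0 * x) * ct (tn lam) x := by
  have hs : HasCompactSupport (tn lam) := by
    apply HasCompactSupport.intro (isCompact_Icc (a := -lam) (b := lam))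
    intro a ha
    unfold tn
    apply max_eq_right
    have h1 : lam ≤ |a| := by
      by_contra h
      push Not at h
      obtain ⟨h3, h4⟩ := abs_lt.1 h
      exact ha ⟨h3.le, h4.le⟩
    have : 1 ≤ |a| / lam := by rw [le_div_iff₀ hlam]; linarith
    linarith
  have he : ∀ a, tn lam (-a) = tn lam a := by
    intro a; unfold tn; rw [abs_neg]
  unfold W207.PR.ct
  have h1 : ∫ a, tn lam (a - a0) * Real.cos (2 * Real.pi * a * x) =
      ∫ a, tn lam a * Real.cos (2 * Real.pi * (a + a0) * x) := by
    rw [← integral_add_right_eq_self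
      (fun a => tn lam (a - a0) * Real.cos (2 * Real.pi * a * x)) a0]
    simp only [add_sub_cancel_right]
  have hi1 : Integrable fun a => tn lam a * Real.cos (2 * Real.pi * a * x) :=
    (hc.mul (by fun_prop)).integrable_of_hasCompactSupport hs.mul_right
  have hi2 : Integrable fun a => tn lam a * Real.sin (2 * Real.pi * a * x) :=
    (hc.mul (by fun_prop)).integrable_of_hasCompactSupport hs.mul_right
  have h2 : ∫ a, tn lam a * Real.sin (2 * Real.pi * a * x) = 0 := by
    have e1 := integral_neg_eq_self (fun a => tn lam a * Real.sin (2 * Real.pi * a * x)) volume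
    have e2 : ∀ a, tn lam (-a) * Real.sin (2 * Real.pi * (-a) * x) =
        -(tn lam a * Real.sin (2 * Real.pi * a * x)) := by
      intro a
      have : 2 * Real.pi * (-a) * x = -(2 * Real.pi * a * x) := by ring
      rw [he, this, Real.sin_neg]
      ring
    simp_rw [e2] at e1
    rw [integral_neg] at e1
    linarith
  rw [h1]
  have h3 : ∀ a, tn lam a * Real.cos (2 * Real.pi * (a + a0) * x) =
      Real.cos (2 * Real.pi * a0 * x) * (tn lam a * Real.cos (2 * Real.pi * a * x)) -
      Real.sin (2 * Real.pi * a0 * x) * (tn lam a * Real.sin (2 * Real.pi * a * x)) := by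
    intro a
    have : 2 * Real.pi * (a + a0) * x = 2 * Real.pi * a * x + 2 * Real.pi * a0 * x := by ring
    rw [this, Real.cos_add]
    ring
  simp_rw [h3]
  rw [integral_sub (hi1.const_mul _) (hi2.const_mul _), integral_const_mul, integral_const_mul, h2,
    mul_zero, sub_zero]

theorem locB : S_LOC := by
  intro hub hmass hpos hwin htn hsn h hh
  obtain ⟨C, T0, hC, hT0, hm⟩ := hmass hub
  have hpi := Real.pi_pos
  obtain ⟨s0, s1, s2, s3, s4, s5, s6, s7⟩ := hsn (2 * h) (by positivity)
  obtain ⟨t1, t2, t3, t4, t5, t6, t7, t8, t9, t10⟩ := htn h hh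
  set K : ℝ := (2 * h + 1) * (2 * (h + 1 / (Real.pi ^ 2 * h))) with hK
  have hK0 : 0 < K := by positivity
  refine ⟨2 * (C * K) / h, T0, by positivity, hT0, fun T hT a0 => ?_⟩
  have hT10 := hT0.trans hT
  set κ : ℝ → ℝ := fun a => tn h (a - a0) with hκ
  have hκc : Continuous κ := t1.comp (by fun_prop)
  have hint0 : Integrable (tn h) := by
    by_contra hni
    rw [integral_undef hni] at t3
    linarith
  have hκi : Integrable κ := hint0.comp_sub_right a0
  obtain ⟨hwc, hw⟩ := (hwin T hT10).2 (2 * h) (by positivity)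
  obtain ⟨w1, w2⟩ := hw κ hκi
  -- upper bound
  have hup : ∫ a, κ a * win T (2 * h) a ≤ C * K := by
    rw [w2]
    refine (le_abs_self _).trans (hm T hT _ K fun x => ?_)
    have e1 : |ct κ x| ≤ ct (tn h) x := by
      rw [hκ, ct_shift t1 hh, abs_mul, abs_of_nonneg (t8 x).1]
      exact mul_le_of_le_one_left (t8 x).1 (Real.abs_cos_le_one _)
    have e2 : ct (tn h) x * (1 + |x|) ^ 2 ≤ 2 * (h + 1 / (Real.pi ^ 2 * h)) := by
      have e3 : (1 + |x|) ^ 2 ≤ 2 * (1 + |x| ^ 2) := by nlinarith [sq_nonneg (1 - |x|)]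
      have e4 : ct (tn h) x * |x| ^ 2 ≤ 1 / (Real.pi ^ 2 * h) := by
        rw [le_div_iff₀ (by positivity), sq_abs]
        have := (t8 x).2.2
        linarith
      have e5 := (t8 x).2.1
      have e6 := (t8 x).1
      calc ct (tn h) x * (1 + |x|) ^ 2 ≤ ct (tn h) x * (2 * (1 + |x| ^ 2)) := by gcongr
        _ = 2 * (ct (tn h) x + ct (tn h) x * |x| ^ 2) := by ring
        _ ≤ _ := by linarith
    rw [abs_mul]
    calc |sn (2 * h) x| * |ct κ x| * (1 + |x|) ^ 3 ≤
        |sn (2 * h) x| * ct (tn h) x * (1 + |x|) ^ 3 := by gcongr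
      _ = (|sn (2 * h) x| * (1 + |x|)) * (ct (tn h) x * (1 + |x|) ^ 2) := by ring
      _ ≤ (2 * h + 1) * (2 * (h + 1 / (Real.pi ^ 2 * h))) :=
          mul_le_mul (s6 x) e2 (mul_nonneg (t8 x).1 (by positivity)) (by positivity)
  -- lower bound
  have hFF := (hpos T hT10).2.2
  have hFc := (hpos T hT10).1
  have hwn : ∀ a, 0 ≤ win T (2 * h) a := fun a =>
    intervalIntegral.integral_nonneg (by linarith) fun x _ => hFF x
  have hlow : h / 2 * win T h a0 ≤ ∫ a, κ a * win T (2 * h) a := by
    have e1 : ∫ a in Icc (a0 - h / 2) (a0 + h / 2), (1 / 2 * win T h a0) ≤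
        ∫ a in Icc (a0 - h / 2) (a0 + h / 2), κ a * win T (2 * h) a := by
      refine setIntegral_mono_on continuous_const.integrableOn_Icc w1.integrableOn measurableSet_Icc fun a ha => ?_
      have g1 : 1 / 2 ≤ κ a := by
        simp only [hκ]
        unfold tn
        refine le_trans ?_ (le_max_left _ _)
        have : |a - a0| / h ≤ 1 / 2 := by
          rw [div_le_iff₀ hh, abs_le]
          constructor <;> linarith [ha.1, ha.2]
        linarith
      have g2 : win T h a0 ≤ win T (2 * h) a := by
        unfold win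
        refine intervalIntegral.integral_mono_interval (by linarith [ha.2]) (by linarith)
          (by linarith [ha.1]) ?_ (hFc.intervalIntegrable _ _)
        exact ae_of_all _ fun x => hFF x
      have g3 : 0 ≤ win T h a0 :=
        intervalIntegral.integral_nonneg (by linarith) fun x _ => hFF x
      calc 1 / 2 * win T h a0 ≤ κ a * win T h a0 := mul_le_mul_of_nonneg_right g1 g3
        _ ≤ κ a * win T (2 * h) a := mul_le_mul_of_nonneg_left g2 (by linarith)
    have e2 : ∫ a in Icc (a0 - h / 2) (a0 + h / 2), (1 / 2 * win T h a0) = h / 2 * win T h a0 := by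
      rw [setIntegral_const, Measure.real, Real.volume_Icc, ENNReal.toReal_ofReal (by linarith),
        smul_eq_mul]
      ring
    rw [e2] at e1
    refine e1.trans (setIntegral_le_integral w1 (ae_of_all _ fun a => ?_))
    exact mul_nonneg (t2 _).1 (hwn a)
  have h5 := hlow.trans hup
  rw [le_div_iff₀ hh]
  linarith

end W207.PF
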