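import Pool.Agent.W207.PU.FinU
import Pool.Agent.W338.PR.Sum
import Pool.Agent.W207.PF.SpecA

/-!
# One-sided bounds for Montgomery's function: the tasks on the zeros of zeta (nothing about zeta is
needed beyond the statements)

`ZT T` is the finite set of zeros with ordinate in `(0, T]`, `mz s ≥ 0` the multiplicity,
`X T = (T/2π) log T`, `P T u = N2 T (2πu/log T) / X T` the normalised number of pairs at distance at
most `u` mean spacings, `Neu T` the number of pairs with equal ordinates.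
-/

set_option autoImplicit false

open Complex Filter Topology Set MeasureTheory
open scoped BigOperators

namespace W207.PF

open W207.PR (ct dt G ZT mz X P PP)
open W207.PU (UBU Neu)

/-- Montgomery's function `F(a, T)`, defined with the ordinates -/
noncomputable def FF (T a : ℝ) : ℝ :=
  (∑ s ∈ ZT T, ∑ s' ∈ ZT T, mz s * mz s' *
    (Real.cos (a * Real.log T * (s.im - s'.im)) * (4 / (4 + (s.im - s'.im) ^ 2)))) / X T

/-- the weighted pair sum of `φ` at the scale of the mean spacing -/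
noncomputable def LT (T : ℝ) (φ : ℝ → ℝ) : ℝ :=
  (∑ s ∈ ZT T, ∑ s' ∈ ZT T, mz s * mz s' *
    (φ ((s.im - s'.im) * Real.log T / (2 * Real.pi)) * (4 / (4 + (s.im - s'.im) ^ 2)))) / X T

/-- the mean of Montgomery's function over the window of length `h` centred at `a` -/
noncomputable def win (T h a : ℝ) : ℝ := ∫ α in (a - h / 2)..(a + h / 2), FF T α

/-- POS -/
def S_POS : Prop := ∀ T : ℝ, 10 ≤ T → Continuous (FF T) ∧ (∀ a, FF T (-a) = FF T a) ∧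
  ∀ a, 0 ≤ FF T a

/-- WIN -/
def S_WIN : Prop := ∀ T : ℝ, 10 ≤ T →
  (∀ W : ℝ → ℝ, Integrable W → Integrable (fun a => W a * FF T a) ∧
    ∫ a, W a * FF T a = LT T (ct W)) ∧
  ∀ h : ℝ, 0 < h → Continuous (win T h) ∧ ∀ κ : ℝ → ℝ, Integrable κ →
    Integrable (fun a => κ a * win T h a) ∧
    ∫ a, κ a * win T h a = LT T (fun x => sn h x * ct κ x)

/-- MASS -/
def S_MASS : Prop := UBU → ∃ C T0 : ℝ, 0 < C ∧ 10 ≤ T0 ∧ ∀ T : ℝ, T0 ≤ T → ∀ (φ : ℝ → ℝ) (K : ℝ),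
  (∀ x, |φ x| * (1 + |x|) ^ 3 ≤ K) → |LT T φ| ≤ C * K

/-- LOC -/
def S_LOC : Prop := UBU → S_MASS → S_POS → S_WIN → S_TN → S_SN → ∀ h : ℝ, 0 < h →
  ∃ C T0 : ℝ, 0 < C ∧ 10 ≤ T0 ∧ ∀ T : ℝ, T0 ≤ T → ∀ a : ℝ, win T h a ≤ C

/-- FEJ -/
def S_FEJ : Prop := UBU → S_MASS → S_TN → S_SN → ∀ h : ℝ, 0 < h →
  ∃ C T0 : ℝ, 0 < C ∧ 10 ≤ T0 ∧ ∀ T : ℝ, T0 ≤ T → ∀ lam : ℝ, 1 ≤ lam →
    h * lam * (Neu T / X T) - C / lam ≤ LT T (fun x => sn h x * ct (tn lam) x)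

/-- SPG -/
def S_SPG : Prop := UBU → S_MASS → S_MZG → ∀ φ φ' : ℝ → ℝ, (∀ x, φ (-x) = φ x) →
  (∀ x, HasDerivAt φ (φ' x) x) → Continuous φ' → ∀ K : ℝ,
  (∀ x, |φ x| * (1 + |x|) ^ 5 ≤ K ∧ |φ' x| * (1 + |x|) ^ 5 ≤ K) →
  ∀ (l : Filter ℝ) [l.IsCountablyGenerated], l ≤ atTop → PP l →
    Tendsto (fun T => LT T φ) l (𝓝 (MZ φ))

/-- BR: the pair counts of the problem file -/
def S_BR : Prop := ∀ l : Filter ℝ, l ≤ atTop → (PP l ↔ ∀ α β : ℝ, α < β →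
  Tendsto (fun T => W201FW.NA T (2 * Real.pi * α / Real.log T) (2 * Real.pi * β / Real.log T) / X T)
    l (𝓝 ((∫ u in α..β, (1 - (Real.sin (Real.pi * u) / (Real.pi * u)) ^ 2)) +
      if α ≤ 0 ∧ 0 ≤ β then 1 else 0)))

/-- the zeros with ordinate in `(0, T]`, as in the problem file -/
def zer (T : ℝ) : Set ℂ := {s : ℂ | riemannZeta s = 0 ∧ 0 < s.re ∧ s.re < 1 ∧ 0 < s.im ∧ s.im ≤ T}

/-- the double sum in Montgomery's function, as in the problem file -/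
noncomputable def FC (T α : ℝ) : ℂ := ∑ᶠ s ∈ zer T, ∑ᶠ s' ∈ zer T,
  ((analyticOrderNatAt riemannZeta s : ℂ) * (analyticOrderNatAt riemannZeta s' : ℂ)) *
    ((T : ℂ) ^ (I * (α : ℂ) * ((s.im - s'.im : ℝ) : ℂ)) *
      ((4 / (4 + (s.im - s'.im) ^ 2) : ℝ) : ℂ))

/-- FD: Montgomery's function as in the problem file -/
def S_FD : Prop := ∀ T α : ℝ, 10 ≤ T →
  FC T α = (FF T α * (T / (2 * Real.pi) * Real.log T) : ℝ)

end W207.PF
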