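import Pool.Agent.W207.PU.All
import Pool.Agent.W207.PF.Fin
import Pool.Agent.W207.PF.FejB
import Pool.Agent.W207.PF.LocB
import Pool.Agent.W207.PF.FdB
import Pool.Agent.W349.PF.TN
import Pool.Agent.W196.PF.Kers
import Pool.Agent.W395.PF.NU
import Pool.Agent.W902.PF.APX1
import Pool.Agent.W816.PF.Apx2
import Pool.Agent.W108.PF.APX3
import Pool.Agent.W816.PF.Min
import Pool.Agent.W816.PF.Ab
import Pool.Agent.W177.PF.MZG
import Pool.Agent.W125.PF.Inv
import Pool.Agent.W688.PF.SAND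
import Pool.Agent.W64.PF.Pos
import Pool.Agent.W688.PF.MASS
import Pool.Agent.W22.PF.BR
import Pool.Agent.W214.PF.Win
import Pool.Agent.W398.PF.Spg

/-! # One-sided bounds for Montgomery's function: all inputs -/

set_option autoImplicit false

namespace W207.PF

theorem inpF : InpF :=
  ⟨Pool.Agent.W349.PF.main, Pool.Agent.W196.PF.t_SN, Pool.Agent.W395.PF.t_NU,
    Pool.Agent.W902.PF.apx1, Pool.Agent.W816.PF.apx2_thm, Pool.Agent.W108.PF.t_APX3,
    Pool.Agent.W816.PF.min_thm, Pool.Agent.W816.PF.ab_thm, Pool.Agent.W177.PF.MZG.mzg,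
    Pool.Agent.W125.PF.inv, Pool.Agent.W688.PF.SAND.main, Pool.Agent.W64.PF.posThm,
    Pool.Agent.W214.PF.pfwin, Pool.Agent.W688.PF.MASS.main, locB, fejB, Pool.Agent.W398.PF.spg⟩

theorem br : S_BR := Pool.Agent.W22.PF.br

theorem fd : S_FD := fdB

end W207.PF
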