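import Pool.Agent.W207.PF.SpecB

/-! # One-sided bounds for Montgomery's function: assembly -/

set_option autoImplicit false

open Complex Filter Topology Set MeasureTheory
open scoped BigOperators

namespace W207.PF

open W207.PR (ct dt G ZT mz X P PP D seq_form P_mono)
open W207.PU (UBU Neu Inp Nof Nso AL of_Neu core_seq Neu_lower)

/-- the inputs -/
structure InpF : Prop where
  tnk : S_TN
  snk : S_SN
  nu : S_NU
  apx1 : S_APX1
  apx2 : S_APX2
  apx3 : S_APX3
  mn : S_MIN
  ab : S_AB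
  mzg : S_MZG
  inv : S_INV
  sand : S_SAND
  pos : S_POS
  win : S_WIN
  mass : S_MASS
  loc : S_LOC
  fej : S_FEJ
  spg : S_SPG

lemma LT_sub (T : ℝ) (φ ψ : ℝ → ℝ) : LT T φ - LT T ψ = LT T (fun x => φ x - ψ x) := by
  unfold LT
  rw [← sub_div, ← Finset.sum_sub_distrib]
  congr 1
  refine Finset.sum_congr rfl fun s _ => ?_
  rw [← Finset.sum_sub_distrib]
  refine Finset.sum_congr rfl fun s' _ => ?_
  ring

/-- a minorant of the indicator function of `[-u, u]` -/
lemma LT_le_P {T u : ℝ} (hT : 10 ≤ T) {φ : ℝ → ℝ} (h1 : ∀ x, |x| ≤ u → φ x ≤ 1)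
    (h2 : ∀ x, u < |x| → φ x ≤ 0) : LT T φ ≤ P T u := by
  classical
  have hX := W207.PR.X_pos hT
  have hlog : 0 < Real.log T := Real.log_pos (by linarith)
  have hpi := Real.pi_pos
  unfold LT P
  apply div_le_div_of_nonneg_right _ hX.le
  unfold H332B.N2
  refine Finset.sum_le_sum fun s _ => Finset.sum_le_sum fun s' _ => ?_
  set d := s.im - s'.im with hd
  have hm : 0 ≤ mz s * mz s' := mul_nonneg (W207.PR.mz_nonneg _) (W207.PR.mz_nonneg _)
  have hw0 : 0 ≤ 4 / (4 + d ^ 2) := by positivity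
  have hw1 : 4 / (4 + d ^ 2) ≤ 1 := by
    rw [div_le_one (by positivity)]
    nlinarith [sq_nonneg d]
  have hx : |d * Real.log T / (2 * Real.pi)| = |d| * Real.log T / (2 * Real.pi) := by
    rw [abs_div, abs_mul, abs_of_pos hlog, abs_of_pos (by positivity : 0 < 2 * Real.pi)]
  by_cases h : |d| ≤ 2 * Real.pi * u / Real.log T
  · rw [if_pos h]
    have h3 : |d * Real.log T / (2 * Real.pi)| ≤ u := by
      rw [hx, div_le_iff₀ (by positivity)]
      rw [le_div_iff₀ hlog] at h
      linarith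
    have h4 := h1 _ h3
    have h5 : φ (d * Real.log T / (2 * Real.pi)) * (4 / (4 + d ^ 2)) ≤ 1 := by
      calc φ (d * Real.log T / (2 * Real.pi)) * (4 / (4 + d ^ 2)) ≤ 1 * (4 / (4 + d ^ 2)) :=
            mul_le_mul_of_nonneg_right h4 hw0
        _ ≤ 1 := by linarith
    calc mz s * mz s' * (φ (d * Real.log T / (2 * Real.pi)) * (4 / (4 + d ^ 2))) ≤
        mz s * mz s' * 1 := mul_le_mul_of_nonneg_left h5 hm
      _ = mz s * mz s' := mul_one _
  · rw [if_neg h]
    have h3 : u < |d * Real.log T / (2 * Real.pi)| := by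
      rw [hx, lt_div_iff₀ (by positivity)]
      rw [not_le, div_lt_iff₀ hlog] at h
      linarith
    have h4 := h2 _ h3
    exact mul_nonpos_of_nonneg_of_nonpos hm (mul_nonpos_of_nonpos_of_nonneg h4 hw0)

/-- one-sided bounds for the windows of length `h`, `T → ∞` along the filter `l` -/
def UW (l : Filter ℝ) (h : ℝ) : Prop :=
  ∀ᵐ a : ℝ, ∀ ε : ℝ, 0 < ε → ∀ᶠ T in l, win T h a ≤ nuw h a + ε

/-- the one-sided bounds along a sequence give the pair counts along the sequence -/
theorem up_seq (I : Inp) (J : InpF) {t : ℕ → ℝ} (ht : Tendsto t atTop atTop) {h : ℝ} (hh : 0 < h)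
    (hU : ∀ᵐ a : ℝ, ∀ ε : ℝ, 0 < ε → ∀ᶠ j in atTop, win (t j) h a ≤ nuw h a + ε) :
    ∀ u : ℝ, 0 < u → Tendsto (fun j => P (t j) u) atTop (𝓝 (1 + 2 * G u)) := by
  obtain ⟨C1, T1, hC1, hT1, hloc⟩ := J.loc I.ubu J.mass J.pos J.win J.tnk J.snk h hh
  obtain ⟨C2, T2, hC2, hT2, hfej⟩ := J.fej I.ubu J.mass J.tnk J.snk h hh
  obtain ⟨C3, T3, hC3, hT3, hmass⟩ := J.mass I.ubu
  obtain ⟨j0, hj0⟩ := eventually_atTop.1 (ht.eventually_ge_atTop (max T1 (max T2 T3)))
  have g1 : ∀ j, T1 ≤ t (j + j0) := fun j => (le_max_left _ _).trans (hj0 _ (by omega))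
  have g2 : ∀ j, T2 ≤ t (j + j0) := fun j =>
    ((le_max_left _ _).trans (le_max_right _ _)).trans (hj0 _ (by omega))
  have g3 : ∀ j, T3 ≤ t (j + j0) := fun j =>
    ((le_max_right _ _).trans (le_max_right _ _)).trans (hj0 _ (by omega))
  have g10 : ∀ j, 10 ≤ t (j + j0) := fun j => hT1.trans (g1 j)
  have ht' : Tendsto (fun j => t (j + j0)) atTop atTop := ht.comp (tendsto_add_atTop_nat j0)
  obtain ⟨hN, hK⟩ := J.ab J.tnk J.nu h hh (fun j => win (t (j + j0)) h)
    (fun j => Neu (t (j + j0)) / X (t (j + j0))) (C1 + C2)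
    (fun j => ((J.win _ (g10 j)).2 h hh).1.measurable)
    (fun j a => ⟨intervalIntegral.integral_nonneg (by linarith) fun x _ => (J.pos _ (g10 j)).2.2 x,
      (hloc _ (g1 j) a).trans (by linarith)⟩)
    (by
      filter_upwards [hU] with a ha ε hε
      exact (tendsto_add_atTop_nat j0).eventually (ha ε hε))
    (by
      intro lam hlam j
      have h1 := hfej _ (g2 j) lam hlam
      obtain ⟨hc, hb, hi, -⟩ := J.tnk lam (by linarith)
      have hint : Integrable (tn lam) := by
        by_contra hni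
        rw [integral_undef hni] at hi
        linarith
      rw [(((J.win _ (g10 j)).2 h hh).2 (tn lam) hint).2]
      have h2 : C2 / lam ≤ (C1 + C2) / lam := by
        apply div_le_div_of_nonneg_right _ (by linarith)
        linarith
      linarith)
    (by
      intro ε hε
      exact ht'.eventually (Neu_lower ε hε))
  -- few zeros off the line
  have hoff : Tendsto (fun j => (Nof (t (j + j0)) : ℝ) / X (t (j + j0))) atTop (𝓝 0) := by
    have hof := of_Neu (l := map (fun j => t (j + j0)) atTop) (by rwa [← Tendsto]) (by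
      intro ε hε
      rw [eventually_map]
      exact hN ε hε)
    have := hof.2.1
    rwa [tendsto_map'_iff] at this
  -- the class of test functions
  have hb : ∀ b : ℝ → ℝ, Continuous b → (∀ y, b (-y) = b y) → HasCompactSupport b →
      ∀ ε : ℝ, 0 < ε → ∀ᶠ j in atTop,
        MZ (fun x => sn h x ^ 2 * b x) - ε ≤ LT (t (j + j0)) (fun x => sn h x ^ 2 * b x) := by
    intro b hbc hbe hbs ε hε
    obtain ⟨s0, s1, s2, s3, s4, s5, s6, s7⟩ := J.snk h hh
    have hcc : Continuous (fun y => b y * sn h y) := hbc.mul s2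
    have hce : ∀ y, (fun y => b y * sn h y) (-y) = (fun y => b y * sn h y) y := by
      intro y
      simp only [hbe, s3]
    have hcs : HasCompactSupport (fun y => b y * sn h y) := hbs.mul_right
    set ε1 : ℝ := ε / (2 * (C3 * (h + 1) + 2)) with hε1
    have hC3h : 0 < C3 * (h + 1) := by positivity
    have hε1p : 0 < ε1 := by positivity
    obtain ⟨R0, hR0, hR⟩ := J.apx2 J.tnk _ hcc hcs ε1 hε1p
    have h3 := J.apx3 J.tnk J.snk J.apx1 J.apx2 h hh b hbc hbe hbs
    have h4 : ∀ᶠ R in atTop, |(∫ a, (tn R a * ct (fun y => b y * sn h y) a) * nuw h a) -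
        MZ (fun x => sn h x ^ 2 * b x)| < ε1 := by
      have := (Metric.tendsto_nhds.1 h3) ε1 hε1p
      filter_upwards [this] with R hR
      rwa [Real.dist_eq] at hR
    obtain ⟨R, hR1, hR2⟩ := (h4.and (eventually_ge_atTop R0)).exists
    have hRpos : 0 < R := hR0.trans_le hR2
    obtain ⟨k1, k2, k3⟩ := J.apx1 _ hcc hce hcs R hRpos
    set κ : ℝ → ℝ := fun a => tn R a * ct (fun y => b y * sn h y) a with hκ
    have hκi : Integrable κ := k1.integrable_of_hasCompactSupport k2
    have h5 := hK κ k1 k2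
    have h6 : ∀ᶠ j in atTop, |(∫ a, κ a * win (t (j + j0)) h a) - ∫ a, κ a * nuw h a| < ε1 := by
      have := (Metric.tendsto_nhds.1 h5) ε1 hε1p
      filter_upwards [this] with j hj
      rwa [Real.dist_eq] at hj
    filter_upwards [h6] with j hj
    rw [(((J.win _ (g10 j)).2 h hh).2 κ hκi).2] at hj
    have h7 : |LT (t (j + j0)) (fun x => sn h x * ct κ x) -
        LT (t (j + j0)) (fun x => sn h x ^ 2 * b x)| ≤ C3 * ((h + 1) * ε1) := by
      rw [LT_sub]
      apply hmass _ (g3 j)
      intro x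
      have e1 : sn h x * ct κ x - sn h x ^ 2 * b x =
          sn h x * ((∫ y, (b y * sn h y) * ct (tn R) (x - y)) - b x * sn h x) := by
        rw [k3 x]; ring
      rw [e1, abs_mul]
      have e2 := hR R hR2 x
      have e3 := s6 x
      calc |sn h x| * |(∫ y, (b y * sn h y) * ct (tn R) (x - y)) - b x * sn h x| * (1 + |x|) ^ 3 =
          (|sn h x| * (1 + |x|)) *
            (|(∫ y, (b y * sn h y) * ct (tn R) (x - y)) - b x * sn h x| * (1 + |x|) ^ 2) := by ring
        _ ≤ (h + 1) * ε1 := mul_le_mul e3 e2 (by positivity) (by linarith)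
    have h8 := (abs_lt.1 hR1).1
    have h9 := (abs_lt.1 hj).1
    have h10 := (abs_le.1 h7).2
    have h11 : C3 * ((h + 1) * ε1) + 2 * ε1 = ε / 2 := by
      have : C3 * ((h + 1) * ε1) + 2 * ε1 = ε1 * (C3 * (h + 1) + 2) := by ring
      rw [this, hε1]
      field_simp
    linarith
  -- the lower bound for the pair counts
  have hD : ∀ u : ℝ, 0 < u → ∀ ε : ℝ, 0 < ε → ∀ᶠ j in atTop,
      1 + 2 * G u - ε ≤ P (t (j + j0)) u := by
    intro u hu ε hε
    obtain ⟨b, b1, b2, b3, b4, b5, b6, b7⟩ := J.mn J.snk h u (ε / 2) hh hu (by positivity)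
    filter_upwards [hb b b1 b2 b3 (ε / 2) (by positivity)] with j hj
    have h1 : LT (t (j + j0)) (fun x => sn h x ^ 2 * b x) ≤ P (t (j + j0)) u := by
      apply LT_le_P (g10 j) b5
      intro x hx
      simp only [b6 x hx, mul_zero, le_refl]
    linarith
  have hfin := core_seq I ht' hoff 1 (Or.inl rfl) 0 1 one_pos (by
    intro u hu ε hε
    filter_upwards [hD u hu ε hε] with j hj
    unfold D
    linarith)
  intro u hu
  exact (tendsto_add_atTop_iff_nat (f := fun j => P (t j) u) j0).1 (hfin u hu)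

/-- smooth test functions -/
lemma smooth_lim (I : Inp) (J : InpF) {l : Filter ℝ} [l.IsCountablyGenerated] (hl : l ≤ atTop)
    (hP : PP l) (ψ : ℝ → ℝ) (hψ : ∀ n : ℕ, ContDiff ℝ n ψ) (hs : HasCompactSupport ψ) :
    Tendsto (fun T => ∫ α, ψ α * FF T α) l (𝓝 (ψ 0 + ∫ α, min |α| 1 * ψ α)) := by
  obtain ⟨i1, i2, i3, i4, i5⟩ := J.inv ψ hψ hs
  obtain ⟨K, hK, hKb⟩ := i4 5
  have h1 := J.spg I.ubu J.mass J.mzg (ct ψ) (dt ψ) i1 i2 i3 K hKb l hl hP
  rw [i5] at h1
  refine h1.congr' ?_
  filter_upwards [hl (eventually_ge_atTop (10 : ℝ))] with T hT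
  have hi : Integrable ψ := (hψ 0).continuous.integrable_of_hasCompactSupport hs
  exact (((J.win T hT).1 ψ hi).2).symm

/-- pair correlation gives the asymptotics for all windows -/
theorem windows (I : Inp) (J : InpF) {l : Filter ℝ} [l.IsCountablyGenerated] (hl : l ≤ atTop)
    (hP : PP l) (a b : ℝ) (hab : a < b) (ha : a ≠ 0) (hb : b ≠ 0) :
    Tendsto (fun T => ∫ α in a..b, FF T α) l
      (𝓝 ((∫ α in a..b, min |α| 1) + if a < 0 ∧ 0 < b then 1 else 0)) := by
  have hS : 0 < |a| + |b| + 1 := by positivity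
  refine J.sand l FF (|a| + |b| + 1) hS ?_ ?_ a b ?_ hab ?_ ha hb
  · filter_upwards [hl (eventually_ge_atTop (10 : ℝ))] with T hT
    exact ⟨(J.pos T hT).1, (J.pos T hT).2.2⟩
  · rintro ψ hψ ⟨μ, -, -, hμ⟩
    apply smooth_lim I J hl hP ψ hψ
    apply HasCompactSupport.intro (isCompact_Icc (a := -μ) (b := μ))
    intro x hx
    apply hμ
    by_contra h
    push Not at h
    obtain ⟨h3, h4⟩ := abs_lt.1 h
    exact hx ⟨h3.le, h4.le⟩
  · have := neg_abs_le a
    have := abs_nonneg b
    linarith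
  · have := le_abs_self b
    have := abs_nonneg a
    linarith

/-- **the equivalence** -/
theorem main (I : Inp) (J : InpF) (l : Filter ℝ) [l.IsCountablyGenerated] (hl : l ≤ atTop) {h : ℝ}
    (hh : 0 < h) : PP l ↔ UW l h := by
  constructor
  · intro hP
    have h0 : ∀ᵐ a : ℝ, a ≠ h / 2 ∧ a ≠ -(h / 2) := by
      rw [ae_iff]
      refine measure_mono_null (t := {h / 2, -(h / 2)}) ?_ (Set.Finite.measure_zero (by simp) _)
      intro x hx
      simp only [Set.mem_ofPred_eq, not_and_or, not_not] at hx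
      simpa using hx
    filter_upwards [h0] with a ha ε hε
    have h1 := windows I J hl hP (a - h / 2) (a + h / 2) (by linarith)
      (fun e => ha.1 (by linarith)) (fun e => ha.2 (by linarith))
    have e : (a - h / 2 < 0 ∧ 0 < a + h / 2) ↔ |a| < h / 2 := by
      rw [abs_lt]
      constructor
      · rintro ⟨h1, h2⟩; constructor <;> linarith
      · rintro ⟨h1, h2⟩; constructor <;> linarith
    simp only [e] at h1
    have h2 : ∀ᶠ T in l, win T h a < nuw h a + ε := by
      have := h1.eventually (gt_mem_nhds (show nuw h a < nuw h a + ε by linarith))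
      exact this
    exact h2.mono fun T hT => hT.le
  · intro hU
    refine seq_form fun t ht => up_seq I J (ht.mono_right hl) hh ?_
    filter_upwards [hU] with a ha ε hε
    exact ht.eventually (ha ε hε)

end W207.PF
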