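import Pool.Agent.W207.PF.Main
import Pool.Agent.W207.PR.All

/-! # The upper half of the strong pair correlation conjecture, on RH -/

set_option autoImplicit false

open Complex Filter Topology Set MeasureTheory
open scoped BigOperators

namespace W207.PF

open W207.PR (ct dt G ZT mz X P PP D Tst MM SP)
open W207.PU (UBU Neu Inp)

/-- removing the weight -/
lemma LT_unw (hub : UBU) : ∃ C T0 : ℝ, 0 < C ∧ 10 ≤ T0 ∧ ∀ T : ℝ, T0 ≤ T → ∀ (φ : ℝ → ℝ) (K : ℝ),
    (∀ x, |φ x| * (1 + |x|) ^ 5 ≤ K) →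
    |LT T φ - (∑ s ∈ ZT T, ∑ s' ∈ ZT T, mz s * mz s' *
      φ ((s.im - s'.im) * Real.log T / (2 * Real.pi))) / X T| ≤ C * K / Real.log T ^ 2 := by
  obtain ⟨C, T0, hC, hT0, hub⟩ := hub
  refine ⟨16 * C * Real.pi ^ 2, T0, by positivity, hT0, fun T hT φ K hK => ?_⟩
  have hT10 := hT0.trans hT
  have hX := W207.PR.X_pos hT10
  have hlog : 0 < Real.log T := Real.log_pos (by linarith)
  have hpi := Real.pi_pos
  have hK0 : 0 ≤ K := le_trans (by positivity) (hK 0)
  have hm := Pool.Agent.W338.PR.mass hC hT0 hub hT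
  unfold Pool.Agent.W338.PR.ps at hm
  rw [Finset.sum_product] at hm
  simp only at hm
  unfold LT
  rw [← sub_div, ← Finset.sum_sub_distrib, abs_div, abs_of_pos hX, div_le_iff₀ hX]
  refine (Finset.abs_sum_le_sum_abs _ _).trans ?_
  have key : ∀ s ∈ ZT T, |(∑ s' ∈ ZT T, mz s * mz s' *
      (φ ((s.im - s'.im) * Real.log T / (2 * Real.pi)) * (4 / (4 + (s.im - s'.im) ^ 2)))) -
      ∑ s' ∈ ZT T, mz s * mz s' * φ ((s.im - s'.im) * Real.log T / (2 * Real.pi))| ≤
      ∑ s' ∈ ZT T, (K * Real.pi ^ 2 / Real.log T ^ 2) * (mz s * mz s' *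
        (1 / (1 + |s.im - s'.im| * Real.log T / (2 * Real.pi)) ^ 3)) := by
    intro s _
    rw [← Finset.sum_sub_distrib]
    refine (Finset.abs_sum_le_sum_abs _ _).trans (Finset.sum_le_sum fun s' _ => ?_)
    set d := s.im - s'.im with hd
    set x := d * Real.log T / (2 * Real.pi) with hx
    have hmm : 0 ≤ mz s * mz s' := mul_nonneg (W207.PR.mz_nonneg _) (W207.PR.mz_nonneg _)
    have hax : |x| = |d| * Real.log T / (2 * Real.pi) := by
      rw [hx, abs_div, abs_mul, abs_of_pos hlog, abs_of_pos (by positivity : 0 < 2 * Real.pi)]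
    rw [← hax]
    have e1 : mz s * mz s' * (φ x * (4 / (4 + d ^ 2))) - mz s * mz s' * φ x =
        -(mz s * mz s' * (φ x * (d ^ 2 / (4 + d ^ 2)))) := by
      have : (4 + d ^ 2 : ℝ) ≠ 0 := by positivity
      field_simp
      ring
    have e2 : d ^ 2 = 4 * Real.pi ^ 2 * |x| ^ 2 / Real.log T ^ 2 := by
      rw [sq_abs, hx]
      field_simp
      ring
    have e3 : d ^ 2 / (4 + d ^ 2) ≤ Real.pi ^ 2 * |x| ^ 2 / Real.log T ^ 2 := by
      calc d ^ 2 / (4 + d ^ 2) ≤ d ^ 2 / 4 := by
            apply div_le_div_of_nonneg_left (sq_nonneg d) (by norm_num)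
            nlinarith [sq_nonneg d]
        _ = _ := by rw [e2]; ring
    have h0 := abs_nonneg x
    have e4 : |φ x| * |x| ^ 2 ≤ K * (1 / (1 + |x|) ^ 3) := by
      rw [mul_one_div, le_div_iff₀ (by positivity)]
      refine le_trans ?_ (hK x)
      calc |φ x| * |x| ^ 2 * (1 + |x|) ^ 3 ≤ |φ x| * (1 + |x|) ^ 2 * (1 + |x|) ^ 3 := by
            gcongr
            linarith
        _ = _ := by ring
    rw [e1, abs_neg, abs_mul, abs_of_nonneg hmm, abs_mul,
      abs_of_nonneg (by positivity : 0 ≤ d ^ 2 / (4 + d ^ 2))]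
    calc mz s * mz s' * (|φ x| * (d ^ 2 / (4 + d ^ 2))) ≤
        mz s * mz s' * (|φ x| * (Real.pi ^ 2 * |x| ^ 2 / Real.log T ^ 2)) := by gcongr
      _ = (Real.pi ^ 2 / Real.log T ^ 2) * (mz s * mz s' * (|φ x| * |x| ^ 2)) := by ring
      _ ≤ (Real.pi ^ 2 / Real.log T ^ 2) * (mz s * mz s' * (K * (1 / (1 + |x|) ^ 3))) := by
          gcongr
      _ = _ := by ring
  refine (Finset.sum_le_sum key).trans ?_
  simp_rw [← Finset.mul_sum]
  calc K * Real.pi ^ 2 / Real.log T ^ 2 * (∑ s ∈ ZT T, ∑ s' ∈ ZT T, mz s * mz s' *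
        (1 / (1 + |s.im - s'.im| * Real.log T / (2 * Real.pi)) ^ 3)) ≤
      K * Real.pi ^ 2 / Real.log T ^ 2 * (16 * C * X T) := by
        gcongr
    _ = 16 * C * Real.pi ^ 2 * K / Real.log T ^ 2 * X T := by ring

/-- Montgomery's theorem on RH -/
lemma mont (hRH : RiemannHypothesis) (I : Inp) (J : InpF) (ψ : ℝ → ℝ)
    (hψ : ∀ n : ℕ, ContDiff ℝ n ψ)
    (hs : ∃ μ : ℝ, 0 < μ ∧ μ < 1 ∧ ∀ x, μ ≤ |x| → ψ x = 0) :
    Tendsto (fun T => ∫ α, ψ α * FF T α) atTop (𝓝 (ψ 0 + ∫ α, min |α| 1 * ψ α)) := by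
  obtain ⟨μ, hμ0, hμ1, hμ⟩ := hs
  have hcs : HasCompactSupport ψ := by
    apply HasCompactSupport.intro (isCompact_Icc (a := -μ) (b := μ))
    intro x hx
    apply hμ
    by_contra h
    push Not at h
    obtain ⟨h3, h4⟩ := abs_lt.1 h
    exact hx ⟨h3.le, h4.le⟩
  have hi : Integrable ψ := (hψ 0).continuous.integrable_of_hasCompactSupport hcs
  -- the even part
  set ψe : ℝ → ℝ := fun x => (ψ x + ψ (-x)) / 2 with hψe
  have hT : Tst ψe := by
    refine ⟨fun n => ?_, fun x => ?_, μ, hμ0, hμ1, fun x hx => ?_⟩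
    · exact ((hψ n).add ((hψ n).comp contDiff_neg)).div_const 2
    · simp only [hψe, neg_neg]; ring
    · simp only [hψe]
      rw [hμ x hx, hμ (-x) (by rwa [abs_neg])]
      norm_num
  have hct : ct ψe = ct ψ := by
    funext x
    unfold W207.PR.ct
    have h1 : Integrable fun α => ψ α * Real.cos (2 * Real.pi * α * x) := by
      refine hi.mul_bdd (c := 1) (by fun_prop) (ae_of_all _ fun α => ?_)
      rw [Real.norm_eq_abs]; exact Real.abs_cos_le_one _
    have h2 : ∫ α, ψ (-α) * Real.cos (2 * Real.pi * α * x) =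
        ∫ α, ψ α * Real.cos (2 * Real.pi * α * x) := by
      rw [← integral_neg_eq_self (fun α => ψ α * Real.cos (2 * Real.pi * α * x)) volume]
      refine integral_congr_ae (ae_of_all _ fun α => ?_)
      show ψ (-α) * Real.cos (2 * Real.pi * α * x) = ψ (-α) * Real.cos (2 * Real.pi * (-α) * x)
      have : 2 * Real.pi * (-α) * x = -(2 * Real.pi * α * x) := by ring
      rw [this, Real.cos_neg]
    have h3 : Integrable fun α => ψ (-α) * Real.cos (2 * Real.pi * α * x) := by
      refine hi.comp_neg.mul_bdd (c := 1) (by fun_prop) (ae_of_all _ fun α => ?_)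
      rw [Real.norm_eq_abs]; exact Real.abs_cos_le_one _
    have h4 : ∀ α, ψe α * Real.cos (2 * Real.pi * α * x) =
        (ψ α * Real.cos (2 * Real.pi * α * x) + ψ (-α) * Real.cos (2 * Real.pi * α * x)) / 2 := by
      intro α; simp only [hψe]; ring
    simp_rw [h4]
    rw [integral_div, integral_add h1 h3, h2]
    ring
  have hMM : MM ψe = ψ 0 + ∫ α, min |α| 1 * ψ α := by
    unfold W207.PR.MM
    have h0 : ψe 0 = ψ 0 := by simp only [hψe, neg_zero]; ring
    rw [h0]
    congr 1
    have e1 : ∀ α, min |α| 1 * ψ α = |α| * ψ α := by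
      intro α
      by_cases h : μ ≤ |α|
      · rw [hμ α h, mul_zero, mul_zero]
      · rw [min_eq_left (by linarith [not_le.1 h])]
    have e2 : Integrable fun α => |α| * ψ α := by
      apply Continuous.integrable_of_hasCompactSupport
      · exact continuous_abs.mul (hψ 0).continuous
      · exact hcs.mul_left
    have e3 : ∫ α, |α| * ψ (-α) = ∫ α, |α| * ψ α := by
      rw [← integral_neg_eq_self (fun α => |α| * ψ α) volume]
      refine integral_congr_ae (ae_of_all _ fun α => ?_)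
      show |α| * ψ (-α) = |(-α)| * ψ (-α)
      rw [abs_neg]
    have e4 : Integrable fun α => |α| * ψ (-α) := by
      have := e2.comp_neg
      simpa using this
    have e5 : ∀ α, |α| * ψe α = (|α| * ψ α + |α| * ψ (-α)) / 2 := by
      intro α; simp only [hψe]; ring
    simp_rw [e1, e5]
    rw [integral_div, integral_add e2 e4, e3]
    ring
  have hsum := Pool.Agent.W338.PR.sum hRH W333.PR.cell W207.PR.ub Pool.Agent.W578.PR.dec
    W207.PR.blk ψe hT
  rw [hMM] at hsum
  obtain ⟨-, -, hdec⟩ := Pool.Agent.W578.PR.dec ψe hT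
  obtain ⟨K, hK, hKb⟩ := hdec 5
  rw [hct] at hKb
  obtain ⟨C, T0, hC, hT0, hun⟩ := LT_unw I.ubu
  have hdiff : Tendsto (fun T => LT T (ct ψ) - SP ψe T / X T) atTop (𝓝 0) := by
    have h1 : Tendsto (fun T : ℝ => C * K / Real.log T ^ 2) atTop (𝓝 0) :=
      tendsto_const_nhds.div_atTop ((tendsto_pow_atTop (by norm_num)).comp Real.tendsto_log_atTop)
    refine squeeze_zero_norm' ?_ h1
    filter_upwards [eventually_ge_atTop T0] with T hT'
    have := hun T hT' (ct ψ) K fun x => (hKb x).1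
    rw [Real.norm_eq_abs]
    unfold W207.PR.SP
    rw [hct]
    exact this
  have h5 := hdiff.add hsum
  rw [zero_add] at h5
  refine h5.congr' ?_
  filter_upwards [eventually_ge_atTop (10 : ℝ)] with T hT10
  rw [((J.win T hT10).1 ψ hi).2]
  ring

/-- windows inside `(-1, 1)` -/
lemma mont_win (hRH : RiemannHypothesis) (I : Inp) (J : InpF) (a b : ℝ) (h1 : -1 < a) (hab : a < b)
    (h2 : b < 1) (ha : a ≠ 0) (hb : b ≠ 0) :
    Tendsto (fun T => ∫ α in a..b, FF T α) atTop
      (𝓝 ((∫ α in a..b, min |α| 1) + if a < 0 ∧ 0 < b then 1 else 0)) := by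
  refine J.sand atTop FF 1 one_pos ?_ ?_ a b h1 hab h2 ha hb
  · filter_upwards [eventually_ge_atTop (10 : ℝ)] with T hT
    exact ⟨(J.pos T hT).1, (J.pos T hT).2.2⟩
  · exact mont hRH I J

/-- one-sided bound for the window `[c, d]` -/
def UB2 (l : Filter ℝ) (c d : ℝ) : Prop := ∀ ε : ℝ, 0 < ε → ∀ᶠ T in l,
  ∫ α in c..d, FF T α ≤ (∫ α in c..d, min |α| 1) + (if c < 0 ∧ 0 < d then 1 else 0) + ε

/-- the upper half of the strong pair correlation conjecture -/
def UpS (l : Filter ℝ) : Prop := ∀ A : ℝ, 1 < A → ∀ ε : ℝ, 0 < ε → ∀ᶠ T in l,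
  ∀ α : ℝ, 1 / 2 ≤ α → α ≤ A → FF T α ≤ 1 + ε

lemma ii_FF (J : InpF) {T : ℝ} (hT : 10 ≤ T) (a b : ℝ) : IntervalIntegrable (FF T) volume a b :=
  (J.pos T hT).1.intervalIntegrable _ _

lemma ii_min (a b : ℝ) : IntervalIntegrable (fun α : ℝ => min |α| 1) volume a b :=
  (by fun_prop : Continuous fun α : ℝ => min |α| 1).intervalIntegrable _ _

/-- pasting windows -/
lemma UB2_add {l : Filter ℝ} (hl : l ≤ atTop) (J : InpF) {a b c : ℝ} (h1 : UB2 l a b)
    (h2 : UB2 l b c) (hab : a ≤ b) (hbc : b ≤ c) (hb : b ≠ 0) : UB2 l a c := by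
  intro ε hε
  filter_upwards [h1 (ε / 2) (by positivity), h2 (ε / 2) (by positivity),
    hl (eventually_ge_atTop (10 : ℝ))] with T g1 g2 hT
  rw [← intervalIntegral.integral_add_adjacent_intervals (ii_FF J hT a b) (ii_FF J hT b c),
    ← intervalIntegral.integral_add_adjacent_intervals (ii_min a b) (ii_min b c)]
  have h3 : (if a < 0 ∧ 0 < b then (1 : ℝ) else 0) + (if b < 0 ∧ 0 < c then (1 : ℝ) else 0) ≤
      if a < 0 ∧ 0 < c then (1 : ℝ) else 0 := by
    rcases lt_or_gt_of_ne hb with h | h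
    · have e1 : ¬ (a < 0 ∧ 0 < b) := fun e => by linarith [e.2]
      rw [if_neg e1]
      by_cases h4 : 0 < c
      · rw [if_pos ⟨h, h4⟩, if_pos ⟨by linarith, h4⟩]; norm_num
      · rw [if_neg (fun e => h4 e.2), if_neg (fun e => h4 e.2)]; norm_num
    · have e1 : ¬ (b < 0 ∧ 0 < c) := fun e => by linarith [e.1]
      rw [if_neg e1]
      by_cases h4 : a < 0
      · rw [if_pos ⟨h4, h⟩, if_pos ⟨h4, by linarith⟩]; norm_num
      · rw [if_neg (fun e => h4 e.1), if_neg (fun e => h4 e.1)]; norm_num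
  linarith

/-- reflection -/
lemma UB2_neg {l : Filter ℝ} (hl : l ≤ atTop) (J : InpF) {a b : ℝ} (h : UB2 l a b) :
    UB2 l (-b) (-a) := by
  intro ε hε
  filter_upwards [h ε hε, hl (eventually_ge_atTop (10 : ℝ))] with T g hT
  have e1 : ∫ α in (-b)..(-a), FF T α = ∫ α in a..b, FF T α := by
    rw [← intervalIntegral.integral_comp_neg]
    refine intervalIntegral.integral_congr fun x _ => ?_
    exact (J.pos T hT).2.1 x
  have e2 : ∫ α in (-b)..(-a), min |α| 1 = ∫ α in a..b, min |α| 1 := by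
    rw [← intervalIntegral.integral_comp_neg (f := fun α : ℝ => min |α| 1)]
    refine intervalIntegral.integral_congr fun x _ => ?_
    show min |(-x)| 1 = min |x| 1
    rw [abs_neg]
  have e3 : (-b < 0 ∧ 0 < -a) ↔ (a < 0 ∧ 0 < b) := by
    constructor
    · rintro ⟨h1, h2⟩; constructor <;> linarith
    · rintro ⟨h1, h2⟩; constructor <;> linarith
  rw [e1, e2]
  simp only [e3]
  exact g

lemma UB2_refl (l : Filter ℝ) (a : ℝ) : UB2 l a a := by
  intro ε hε
  filter_upwards with T
  rw [intervalIntegral.integral_same, intervalIntegral.integral_same]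
  split_ifs <;> linarith

/-- inside `(-1, 1)` -/
lemma UB2_in (hRH : RiemannHypothesis) (I : Inp) (J : InpF) {l : Filter ℝ} (hl : l ≤ atTop)
    {a b : ℝ} (h1 : -1 < a) (hab : a ≤ b) (h2 : b < 1) (ha : a ≠ 0) (hb : b ≠ 0) : UB2 l a b := by
  rcases hab.eq_or_lt with h | h
  · rw [h]; exact UB2_refl l b
  · intro ε hε
    have h3 := (mont_win hRH I J a b h1 h h2 ha hb).mono_left hl
    exact (h3.eventually (gt_mem_nhds (lt_add_of_pos_right _ hε))).mono fun T hT => hT.le

/-- from the upper half: windows in `[1/2, ∞)` up to the loss near `1` -/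
lemma UB2_right {l : Filter ℝ} (hl : l ≤ atTop) (J : InpF) (hU : UpS l) {c d : ℝ} (hc : 1 ≤ c)
    (hcd : c ≤ d) : UB2 l c d := by
  intro ε hε
  set η : ℝ := ε / (d - c + 1) with hη
  have hdc : 0 < d - c + 1 := by linarith
  have hη0 : 0 < η := by positivity
  filter_upwards [hU (max d 2) (lt_of_lt_of_le one_lt_two (le_max_right _ _)) η hη0,
    hl (eventually_ge_atTop (10 : ℝ))] with T g hT
  have h1 : ∫ α in c..d, FF T α ≤ ∫ α in c..d, (min |α| 1 + η) := by
    refine intervalIntegral.integral_mono_on hcd (ii_FF J hT c d)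
      ((ii_min c d).add intervalIntegrable_const) fun α hα => ?_
    have h2 := g α (by linarith [hα.1]) (hα.2.trans (le_max_left _ _))
    have h3 : min |α| 1 = 1 := by
      apply min_eq_right
      rw [abs_of_nonneg (by linarith [hα.1])]
      linarith [hα.1]
    rw [h3]
    exact h2
  rw [intervalIntegral.integral_add (ii_min c d) intervalIntegrable_const,
    intervalIntegral.integral_const, smul_eq_mul] at h1
  have h2 : (d - c) * η ≤ ε := by
    rw [hη, mul_div_assoc']
    rw [div_le_iff₀ hdc]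
    nlinarith
  have h3 : (0 : ℝ) ≤ if c < 0 ∧ 0 < d then 1 else 0 := by split_ifs <;> norm_num
  linarith

/-- windows `[c, 1]`, `0 < c < 1` -/
lemma UB2_one (hRH : RiemannHypothesis) (I : Inp) {l : Filter ℝ} (hl : l ≤ atTop) (J : InpF)
    (hU : UpS l) {c : ℝ} (hc : 0 < c) (hc1 : c ≤ 1) : UB2 l c 1 := by
  rcases hc1.eq_or_lt with h | hc1
  · rw [h]; exact UB2_refl l 1
  intro ε hε
  -- `b` close to `1`
  set δ : ℝ := min (min ((1 - c) / 2) (1 / 2)) (ε / 8) with hδ
  have hδ0 : 0 < δ := by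
    apply lt_min (lt_min _ _) _
    · linarith
    · norm_num
    · positivity
  have hδ1 : δ ≤ (1 - c) / 2 := (min_le_left _ _).trans (min_le_left _ _)
  have hδ2 : δ ≤ 1 / 2 := (min_le_left _ _).trans (min_le_right _ _)
  have hδ3 : δ ≤ ε / 8 := min_le_right _ _
  set b : ℝ := 1 - δ with hb
  have h1 := UB2_in hRH I J hl (a := c) (b := b) (by linarith) (by linarith) (by linarith)
    hc.ne' (by rw [hb]; intro e; linarith)
  filter_upwards [h1 (ε / 2) (by positivity), hU 2 (by norm_num) 1 one_pos,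
    hl (eventually_ge_atTop (10 : ℝ))] with T g1 g2 hT
  have h2 : ∫ α in b..1, FF T α ≤ ∫ _α in b..1, (2 : ℝ) := by
    refine intervalIntegral.integral_mono_on (by linarith) (ii_FF J hT b 1)
      intervalIntegrable_const fun α hα => ?_
    have := g2 α (by linarith [hα.1]) (by linarith [hα.2])
    linarith
  rw [intervalIntegral.integral_const, smul_eq_mul] at h2
  have h3 : (0 : ℝ) ≤ ∫ α in b..1, min |α| 1 :=
    intervalIntegral.integral_nonneg (by linarith) fun α _ => by positivity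
  rw [← intervalIntegral.integral_add_adjacent_intervals (ii_FF J hT c b) (ii_FF J hT b 1),
    ← intervalIntegral.integral_add_adjacent_intervals (ii_min c b) (ii_min b 1)]
  have e1 : ¬ (c < 0 ∧ 0 < b) := fun e => by linarith [e.1]
  have e2 : ¬ (c < 0 ∧ (0 : ℝ) < 1) := fun e => by linarith [e.1]
  rw [if_neg e1] at g1
  rw [if_neg e2]
  have h4 : (1 - b) * 2 ≤ ε / 4 := by rw [hb]; linarith
  linarith

/-- all windows -/
lemma UB2_all (hRH : RiemannHypothesis) (I : Inp) {l : Filter ℝ} (hl : l ≤ atTop) (J : InpF)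
    (hU : UpS l) {c d : ℝ} (hcd : c ≤ d) (hc : c ≠ 0) (hd : d ≠ 0) : UB2 l c d := by
  -- positive
  have hp : ∀ c d : ℝ, 0 < c → c ≤ d → UB2 l c d := by
    intro c d hc hcd
    rcases lt_or_ge d 1 with h | h
    · exact UB2_in hRH I J hl (by linarith) hcd h hc.ne' (by linarith)
    · rcases le_or_gt c 1 with h' | h'
      · exact UB2_add hl J (UB2_one hRH I hl J hU hc h') (UB2_right hl J hU le_rfl h) h' h
          one_ne_zero
      · exact UB2_right hl J hU h'.le hcd
  rcases lt_or_gt_of_ne hc with h1 | h1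
  · rcases lt_or_gt_of_ne hd with h2 | h2
    · have := UB2_neg hl J (hp (-d) (-c) (by linarith) (by linarith))
      rwa [neg_neg, neg_neg] at this
    · -- `c < 0 < d`
      set s : ℝ := min (min (-c) d) (1 / 2) with hs
      have hs0 : 0 < s := lt_min (lt_min (by linarith) h2) (by norm_num)
      have hs1 : s ≤ -c := (min_le_left _ _).trans (min_le_left _ _)
      have hs2 : s ≤ d := (min_le_left _ _).trans (min_le_right _ _)
      have hs3 : s ≤ 1 / 2 := min_le_right _ _
      have g1 : UB2 l c (-s) := by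
        have := UB2_neg hl J (hp s (-c) hs0 hs1)
        rwa [neg_neg] at this
      have g2 : UB2 l (-s) s := UB2_in hRH I J hl (by linarith) (by linarith) (by linarith)
        (by linarith) hs0.ne'
      have g3 : UB2 l s d := hp s d hs0 hs2
      exact UB2_add hl J g1 (UB2_add hl J g2 g3 (by linarith) hs2 hs0.ne') (by linarith)
        (by linarith) (by linarith)
  · exact hp c d h1 hcd

/-- **the upper half of the strong pair correlation conjecture** -/
theorem strong (hRH : RiemannHypothesis) (I : Inp) (J : InpF) (l : Filter ℝ)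
    [l.IsCountablyGenerated] (hl : l ≤ atTop) (hU : UpS l) : PP l ∧
    ∀ A : ℝ, 1 < A → Tendsto (fun T => ∫ α in (1 : ℝ)..A, |FF T α - 1|) l (𝓝 0) := by
  have hP : PP l := by
    rw [main I J l hl one_pos]
    have h0 : ∀ᵐ a : ℝ, a ≠ 1 / 2 ∧ a ≠ -(1 / 2) := by
      rw [ae_iff]
      refine measure_mono_null (t := {(1 / 2 : ℝ), -(1 / 2)}) ?_ (Set.Finite.measure_zero (by simp) _)
      intro x hx
      simp only [Set.mem_ofPred_eq, not_and_or, not_not] at hx
      simpa using hx
    filter_upwards [h0] with a ha ε hε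
    have h1 := UB2_all hRH I hl J hU (c := a - 1 / 2) (d := a + 1 / 2) (by linarith)
      (fun e => ha.1 (by linarith)) (fun e => ha.2 (by linarith)) ε hε
    have e : (a - 1 / 2 < 0 ∧ 0 < a + 1 / 2) ↔ |a| < 1 / 2 := by
      rw [abs_lt]
      constructor
      · rintro ⟨h1, h2⟩; constructor <;> linarith
      · rintro ⟨h1, h2⟩; constructor <;> linarith
    simp only [e] at h1
    exact h1
  refine ⟨hP, fun A hA => ?_⟩
  have hw := windows I J hl hP 1 A hA one_ne_zero (by linarith)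
  have e1 : (∫ α in (1 : ℝ)..A, min |α| 1) = A - 1 := by
    have : ∫ α in (1 : ℝ)..A, min |α| 1 = ∫ _α in (1 : ℝ)..A, (1 : ℝ) := by
      refine intervalIntegral.integral_congr fun α hα => ?_
      rw [uIcc_of_le hA.le] at hα
      show min |α| 1 = 1
      apply min_eq_right
      rw [abs_of_nonneg (by linarith [hα.1])]
      exact hα.1
    rw [this]
    simp
  have e2 : ¬ ((1 : ℝ) < 0 ∧ 0 < A) := fun e => by linarith [e.1]
  rw [e1, if_neg e2, add_zero] at hw
  rw [Metric.tendsto_nhds]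
  intro ε hε
  set η : ℝ := ε / (4 * A) with hη
  have hη0 : 0 < η := by
    have : 0 < A := by linarith
    positivity
  have h1 : ∀ᶠ T in l, A - 1 - ε / 4 < ∫ α in (1 : ℝ)..A, FF T α :=
    hw.eventually (lt_mem_nhds (by linarith))
  filter_upwards [h1, hU A hA η hη0, hl (eventually_ge_atTop (10 : ℝ))] with T g1 g2 hT
  have hc := (J.pos T hT).1
  have h2 : ∫ α in (1 : ℝ)..A, |FF T α - 1| ≤ ∫ α in (1 : ℝ)..A, (2 * η - (FF T α - 1)) := by
    refine intervalIntegral.integral_mono_on hA.le ((by fun_prop :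
      Continuous fun α => |FF T α - 1|).intervalIntegrable _ _) ((by fun_prop :
      Continuous fun α => 2 * η - (FF T α - 1)).intervalIntegrable _ _) fun α hα => ?_
    have := g2 α (by linarith [hα.1]) hα.2
    rw [abs_le]
    constructor <;> linarith
  have e3 : ∫ α in (1 : ℝ)..A, (2 * η - (FF T α - 1)) =
      (2 * η + 1) * (A - 1) - ∫ α in (1 : ℝ)..A, FF T α := by
    have : ∀ α, 2 * η - (FF T α - 1) = (2 * η + 1) - FF T α := by intro α; ring
    simp_rw [this]
    rw [intervalIntegral.integral_sub intervalIntegrable_const (ii_FF J hT 1 A),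
      intervalIntegral.integral_const, smul_eq_mul]
    ring
  have h3 : 0 ≤ ∫ α in (1 : ℝ)..A, |FF T α - 1| :=
    intervalIntegral.integral_nonneg hA.le fun α _ => abs_nonneg _
  rw [Real.dist_eq, sub_zero, abs_of_nonneg h3]
  have h4 : 2 * η * (A - 1) ≤ ε / 2 := by
    have hA0 : 0 < A := by linarith
    have : 2 * η * A = ε / 2 := by rw [hη]; field_simp; ring
    nlinarith
  nlinarith

end W207.PF
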